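import Mathlib
import Pool.Agent.H25.DimImage

set_option autoImplicit false

namespace Pool.Agent.Results.MP_2d1133_lc.NoSet

open scoped NNReal ENNReal
open Pool.Agent.H25.DimImage

theorem result : ∀ s : ℝ, 0 < s → s < 1 → ∀ E : Set (EuclideanSpace ℝ (Fin 2)),
    dimH E = ENNReal.ofReal (1 + s) →
      ∃ f : EuclideanSpace ℝ (Fin 2) → ℝ, Continuous f ∧ ENNReal.ofReal s < dimH (f '' E) := by
  intro s h0 h1 E hE
  by_contra h
  push Not at h
  let e : EuclideanSpace ℝ (Fin 2) ≃L[ℝ] ℝ × ℝ :=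
    (EuclideanSpace.equiv (Fin 2) ℝ).trans (ContinuousLinearEquiv.finTwoArrow ℝ ℝ)
  obtain ⟨k, hk⟩ := exists_nat_gt (s / (1 - s))
  have hk0 : (0 : ℝ) < k := lt_trans (div_pos h0 (by linarith)) hk
  have hk1 : 0 < k := by exact_mod_cast hk0
  rw [div_lt_iff₀ (by linarith)] at hk
  have ha : (0 : ℝ) < k / (2 * k + 1) := by positivity
  obtain ⟨t, ht⟩ : ∃ t : ℝ≥0, (t : ℝ) = 1 + s / 2 := ⟨⟨1 + s / 2, by linarith⟩, rfl⟩
  obtain ⟨a, ha'⟩ : ∃ a : ℝ≥0, (a : ℝ) = k / (2 * k + 1) := ⟨⟨_, ha.le⟩, rfl⟩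
  have key := plane t (by
      rw [← NNReal.coe_lt_coe, ht]
      simp [h0]) (2 ^ k) (Nat.one_lt_two_pow hk1.ne') a (by rw [← NNReal.coe_pos, ha']; exact ha)
    (by rw [ha']; exact exponent k) (ENNReal.ofReal s) (e '' E) (fun f hf => by
      rw [Set.image_image]
      exact h (fun z => f (e z)) (by fun_prop))
  rw [e.dimH_image, hE, ← ENNReal.ofReal_coe_nnreal, ← ENNReal.ofReal_coe_nnreal, ht, ha',
    ← ENNReal.ofReal_div_of_pos ha] at key
  rcases le_max_iff.1 key with h2 | h2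
  · rw [ENNReal.ofReal_le_ofReal_iff (by positivity)] at h2
    have : (1 + s : ℝ) ≤ 1 + s / 2 := h2
    linarith
  · rw [ENNReal.ofReal_le_ofReal_iff (by positivity)] at h2
    have h3 : (1 + s : ℝ) ≤ s / (k / (2 * k + 1)) := h2
    rw [le_div_iff₀ ha, ← mul_div_assoc, div_le_iff₀ (by positivity)] at h3
    nlinarith

end Pool.Agent.Results.MP_2d1133_lc.NoSet
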